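import Mathlib
import Pool.Agent.Helper429.TF.Mn

set_option autoImplicit false

namespace Pool.Agent.Results.MP_8149cf_al.TorsionFreeMetanilpotent

open Pool.Agent.Helper429
open scoped commutatorElement

universe u

/-- The group `G` satisfies all the laws `w = 1` with `w ∈ W`; here `W` is a set of words in the
letters `x₀, x₁, ...`, that is, of elements of the free group on `ℕ`. The variety defined by `W` is
the class of all groups `G` with `Satisfies W G`. -/
def Satisfies (W : Set (FreeGroup ℕ)) (G : Type u) [Group G] : Prop :=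
  ∀ w ∈ W, ∀ φ : FreeGroup ℕ →* G, φ w = 1

/-- The verbal subgroup `W(G)`: the subgroup generated by all values in `G` of the words of `W`. -/
def verbal (W : Set (FreeGroup ℕ)) (G : Type u) [Group G] : Subgroup G :=
  Subgroup.closure {g | ∃ w ∈ W, ∃ φ : FreeGroup ℕ →* G, φ w = g}

instance verbal_normal (W : Set (FreeGroup ℕ)) (G : Type u) [Group G] : (verbal W G).Normal := by
  constructor
  intro g hg h
  have : verbal W G ≤ (verbal W G).comap (MulAut.conj h).toMonoidHom := by
    rw [verbal, Subgroup.closure_le]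
    rintro _ ⟨w, hw, φ, rfl⟩
    exact Subgroup.subset_closure ⟨w, hw, (MulAut.conj h).toMonoidHom.comp φ, rfl⟩
  exact this hg

/-- The variety defined by `W` is torsion-free: all its relatively free groups, that is, all the
groups `F/W(F)` with `F` a free group on a set `X` of any cardinality, are torsion-free. -/
def IsTorsionFreeVariety (W : Set (FreeGroup ℕ)) : Prop :=
  ∀ (X : Type u) (g : FreeGroup X ⧸ verbal W (FreeGroup X)) (m : ℕ), 0 < m → g ^ m = 1 → g = 1

/-- The variety defined by `W` is contained in the product `𝔑_c 𝔑_d`: every group in it has a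
normal subgroup `K` that is nilpotent of class at most `c` such that the factor group by `K` is
nilpotent of class at most `d`. -/
def ContainedInNN (W : Set (FreeGroup ℕ)) (c d : ℕ) : Prop :=
  ∀ (G : Type u) [Group G], Satisfies W G → ∃ (K : Subgroup G) (_ : K.Normal),
    (Group.IsNilpotent K ∧ Group.nilpotencyClass K ≤ c) ∧
    (Group.IsNilpotent (G ⧸ K) ∧ Group.nilpotencyClass (G ⧸ K) ≤ d)

/-- The variety defined by `W` is finitely based: it is the class of all groups satisfying some
finite set of laws. -/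
def IsFinitelyBased (W : Set (FreeGroup ℕ)) : Prop :=
  ∃ S : Set (FreeGroup ℕ), S.Finite ∧ ∀ (G : Type u) [Group G], Satisfies W G ↔ Satisfies S G

/-- The factor group by the verbal subgroup satisfies the laws (a check of the definitions). -/
theorem satisfies_quotient (W : Set (FreeGroup ℕ)) (G : Type u) [Group G] :
    Satisfies W (G ⧸ verbal W G) := by
  intro w hw φ
  let x : ℕ → G := fun i => Quotient.out (φ (FreeGroup.of i))
  have h1 : φ = (QuotientGroup.mk' (verbal W G)).comp (FreeGroup.lift x) := by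
    ext i
    simp [x]
  rw [h1, MonoidHom.comp_apply]
  exact (QuotientGroup.eq_one_iff _).mpr (Subgroup.subset_closure ⟨w, hw, _, rfl⟩)

lemma satisfies_ulift {W : Set (FreeGroup ℕ)} {G : Type} [Group G] :
    Satisfies W (ULift.{u} G) ↔ Satisfies W G := by
  constructor
  · intro h w hw φ
    have h1 := h w hw ((MulEquiv.ulift (α := G)).symm.toMonoidHom.comp φ)
    exact MulEquiv.ulift.symm.injective (h1.trans (map_one _).symm)
  · intro h w hw φ
    have h1 := h w hw ((MulEquiv.ulift (α := G)).toMonoidHom.comp φ)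
    exact MulEquiv.ulift.injective (h1.trans (map_one _).symm)

lemma exists_letters {X : Type u} (g : FreeGroup X) : ∃ s : Set X, s.Finite ∧
    ∀ ρ : FreeGroup X →* FreeGroup X, (∀ x ∈ s, ρ (FreeGroup.of x) = FreeGroup.of x) →
      ρ g = g := by
  refine FreeGroup.induction_on g ?_ ?_ ?_ ?_
  · exact ⟨∅, Set.finite_empty, fun ρ _ => map_one ρ⟩
  · intro x
    exact ⟨{x}, Set.finite_singleton x, fun ρ h => h x rfl⟩
  · intro x hx
    obtain ⟨s, hs, h⟩ := hx
    exact ⟨s, hs, fun ρ hρ => by rw [map_inv]; exact congrArg _ (h ρ hρ)⟩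
  · intro x y hx hy
    obtain ⟨s, hs, h⟩ := hx
    obtain ⟨t, ht, h'⟩ := hy
    refine ⟨s ∪ t, hs.union ht, fun ρ hρ => ?_⟩
    rw [map_mul, h ρ fun x hx => hρ x (Or.inl hx), h' ρ fun x hx => hρ x (Or.inr hx)]

lemma exists_factor {X : Type u} [Nonempty X] (g : FreeGroup X) :
    ∃ (α : FreeGroup ℕ →* FreeGroup X) (β : FreeGroup X →* FreeGroup ℕ), α (β g) = g := by
  obtain ⟨s, hs, h⟩ := exists_letters g
  obtain ⟨x0⟩ := (inferInstance : Nonempty X)
  obtain ⟨f, hf⟩ := (hs.insert x0).countable.exists_eq_range ⟨x0, Set.mem_insert _ _⟩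
  refine ⟨FreeGroup.lift fun i => FreeGroup.of (f i),
    FreeGroup.lift fun x => FreeGroup.of (Function.invFun f x), ?_⟩
  rw [← MonoidHom.comp_apply]
  apply h
  intro x hx
  have hx' : ∃ i, f i = x := by
    have : x ∈ Set.range f := hf ▸ Set.mem_insert_of_mem _ hx
    exact this
  rw [MonoidHom.comp_apply, FreeGroup.lift_apply_of, FreeGroup.lift_apply_of,
    Function.invFun_eq hx']

lemma torsionFree : IsTorsionFreeVariety.{u} TF.NN := by
  intro X g m hm hg
  induction g using QuotientGroup.induction_on with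
  | H g =>
  rw [← QuotientGroup.mk_pow, QuotientGroup.eq_one_iff] at hg
  rw [QuotientGroup.eq_one_iff]
  rcases isEmpty_or_nonempty X with hX | hX
  · have : g = 1 := Subsingleton.elim _ _
    rw [this]
    exact Subgroup.one_mem _
  obtain ⟨α, β, hαβ⟩ := exists_factor g
  refine Subgroup.subset_closure ⟨β g, ?_, α, hαβ⟩
  intro n l j hj φ
  apply TF.GG_torsion_free l j _ m hm
  have hk : verbal TF.NN (FreeGroup X) ≤ (φ.comp β).ker := by
    rw [verbal, Subgroup.closure_le]
    rintro _ ⟨w, hw, ψ, rfl⟩
    exact hw n l j hj ((φ.comp β).comp ψ)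
  have h1 := hk hg
  rw [MonoidHom.mem_ker, map_pow] at h1
  exact h1

lemma contained : ContainedInNN.{u} TF.NN 2 2 := by
  intro G _ hG
  refine ⟨TF.Kk G, TF.Kk_normal G, TF.lcs_two ?_, ?_⟩
  · intro x y z
    apply Subtype.ext
    exact TF.Kk_class hG x.2 y.2 z.2
  · have := TF.Kk_normal G
    apply TF.lcs_two
    intro x y z
    induction x using QuotientGroup.induction_on with
    | H x =>
    induction y using QuotientGroup.induction_on with
    | H y =>
    induction z using QuotientGroup.induction_on with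
    | H z =>
    exact (QuotientGroup.eq_one_iff _).mpr (TF.Kk_comm x y z)

lemma not_finitelyBased : ¬ IsFinitelyBased.{u} TF.NN := by
  rintro ⟨S, hS, h⟩
  have hS' : S ⊆ TF.NN := by
    intro w hw n l j hj φ
    have h1 : Satisfies TF.NN (ULift.{u} (TF.GG l j)) :=
      satisfies_ulift.mpr fun v hv ψ => hv n l j hj ψ
    exact satisfies_ulift.mp ((h _).mp h1) w hw φ
  obtain ⟨m, hm⟩ := TF.exists_support_finite S hS
  have h2 : Satisfies S (ULift.{u} (TF.WG (0 : Fin (m + 2)))) := by
    rw [satisfies_ulift]
    intro w hw φ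
    exact TF.WG_sat (by omega) _ w (hS' hw) (hm w hw) φ
  have h3 := satisfies_ulift.mp ((h _).mpr h2) _ (TF.ww_mem (m + 2))
    (FreeGroup.lift (TF.XX m))
  rw [TF.map_ww] at h3
  simp only [FreeGroup.lift_apply_of] at h3
  exact TF.ww_XX m h3

/-- There is a torsion-free variety of groups contained in `𝔑₂𝔑₂` which is not finitely based. -/
theorem result : ∃ W : Set (FreeGroup ℕ),
    IsTorsionFreeVariety.{u} W ∧ ContainedInNN.{u} W 2 2 ∧ ¬ IsFinitelyBased.{u} W :=
  ⟨TF.NN, torsionFree, contained, not_finitelyBased⟩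

end Pool.Agent.Results.MP_8149cf_al.TorsionFreeMetanilpotent
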